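import Pool.Agent.Y571.NX.D

/-!
Project NX, part RECA: bounded nonnegative functions harmonic off one point, in dimensions one
and two.
-/

set_option autoImplicit false

open Finset Filter Topology

namespace Pool.Agent.Y217.NX

open Pool.Agent.Y571.NX

variable {d : ℕ}

/-- the sup norm -/
def nn (z : Fin d → ℤ) : ℕ := Finset.univ.sup (fun i => (z i).natAbs)

theorem nn_le {z : Fin d → ℤ} {k : ℕ} : nn z ≤ k ↔ ∀ i, (z i).natAbs ≤ k := by
  simp [nn, Finset.sup_le_iff]

/-- the box -/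
noncomputable def bx (d k : ℕ) : Finset (Fin d → ℤ) :=
  Finset.Icc (fun _ => -(k : ℤ)) (fun _ => (k : ℤ))

theorem mem_bx {z : Fin d → ℤ} {k : ℕ} : z ∈ bx d k ↔ nn z ≤ k := by
  rw [nn_le, bx, Finset.mem_Icc, Pi.le_def, Pi.le_def]
  constructor
  · rintro ⟨h1, h2⟩ i
    have a := h1 i
    have b := h2 i
    omega
  · intro h
    exact ⟨fun i => by have := h i; omega, fun i => by have := h i; omega⟩

theorem card_bx (k : ℕ) : (bx d k).card = (2 * k + 1) ^ d := by
  rw [bx, Pi.card_Icc]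
  simp only [Int.card_Icc, Finset.prod_const, Finset.card_univ, Fintype.card_fin]
  congr 1
  omega

/-- the opposite step -/
def ng (s : Fin d × Bool) : Fin d × Bool := (s.1, !s.2)

theorem vecD_ng (s : Fin d × Bool) : vecD (ng s) = -vecD s := by
  obtain ⟨i, b⟩ := s
  cases b <;> simp [vecD, ng, ← Pi.single_neg]

theorem vecD_abs (s : Fin d × Bool) (i : Fin d) : (vecD s i).natAbs ≤ 1 := by
  obtain ⟨j, b⟩ := s
  unfold vecD
  rw [Pi.single_apply]
  split_ifs <;> simp

theorem nn_add (z : Fin d → ℤ) (s : Fin d × Bool) : nn (z + vecD s) ≤ nn z + 1 := by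
  rw [nn_le]
  intro i
  have h1 := vecD_abs s i
  have h2 := nn_le.mp (le_refl (nn z)) i
  rw [Pi.add_apply]
  omega

theorem nn_add' (z : Fin d → ℤ) (s : Fin d × Bool) : nn z ≤ nn (z + vecD s) + 1 := by
  have h := nn_add (z + vecD s) (ng s)
  rwa [vecD_ng, add_neg_cancel_right] at h

/-- harmonic numbers -/
noncomputable def Hm (R : ℕ) : ℝ := ∑ j ∈ Finset.range R, (1 / ((j : ℝ) + 1))

/-- the radial cutoff -/
noncomputable def ff (R k : ℕ) : ℝ := (∑ j ∈ Finset.Ico k R, (1 / ((j : ℝ) + 1))) / Hm R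

theorem Hm_pos {R : ℕ} (hR : 1 ≤ R) : 0 < Hm R := by
  unfold Hm
  apply Finset.sum_pos
  · intro i _; positivity
  · exact ⟨0, Finset.mem_range.mpr hR⟩

theorem ff_zero {R k : ℕ} (h : R ≤ k) : ff R k = 0 := by
  unfold ff
  rw [Finset.Ico_eq_empty (by omega), Finset.sum_empty, zero_div]

theorem ff_succ {R k : ℕ} (h : k < R) : ff R k = ff R (k + 1) + 1 / (((k : ℝ) + 1) * Hm R) := by
  unfold ff
  have hH : Hm R ≠ 0 := (Hm_pos (by omega)).ne'
  rw [Finset.sum_eq_sum_Ico_succ_bot h]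
  have : (k : ℝ) + 1 ≠ 0 := by positivity
  field_simp
  ring

theorem ff_tendsto (k : ℕ) : Tendsto (fun R => ff R k) atTop (𝓝 1) := by
  have hH : Tendsto Hm atTop atTop := by
    have := Real.tendsto_sum_range_one_div_nat_succ_atTop
    exact this
  have h1 : Tendsto (fun R => 1 - Hm k * (Hm R)⁻¹) atTop (𝓝 (1 - Hm k * 0)) :=
    tendsto_const_nhds.sub (tendsto_const_nhds.mul (tendsto_inv_atTop_zero.comp hH))
  rw [mul_zero, sub_zero] at h1
  refine h1.congr' ?_
  filter_upwards [eventually_ge_atTop (max k 1)] with R hR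
  have hk : k ≤ R := le_trans (le_max_left _ _) hR
  have h0 : Hm R ≠ 0 := (Hm_pos (le_trans (le_max_right _ _) hR)).ne'
  unfold ff
  rw [Finset.sum_Ico_eq_sub _ hk]
  change 1 - Hm k * (Hm R)⁻¹ = (Hm R - Hm k) / Hm R
  field_simp

/-- the bound of the squares of the differences -/
noncomputable def ww (R k : ℕ) : ℝ := if k ≤ R then 4 / (((k : ℝ) + 1) ^ 2 * Hm R ^ 2) else 0

theorem ww_nonneg (R k : ℕ) : 0 ≤ ww R k := by
  unfold ww
  split_ifs
  · positivity
  · exact le_rfl

theorem ff_diff {R m k : ℕ} (h1 : m ≤ k + 1) (h2 : k ≤ m + 1) :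
    (ff R m - ff R k) ^ 2 ≤ ww R k := by
  rcases (by omega : m = k ∨ m = k + 1 ∨ k = m + 1) with h | h | h
  · rw [h, sub_self, zero_pow (by norm_num)]
    exact ww_nonneg R k
  · subst h
    by_cases hk : k < R
    · have hH := Hm_pos (R := R) (by omega)
      rw [ff_succ hk, ww, if_pos hk.le]
      have e : ff R (k + 1) - (ff R (k + 1) + 1 / (((k : ℝ) + 1) * Hm R)) =
          -(1 / (((k : ℝ) + 1) * Hm R)) := by ring
      rw [e, neg_sq, div_pow, one_pow, mul_pow]
      apply div_le_div_of_nonneg_right (by norm_num) (by positivity)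
    · rw [ff_zero (by omega), ff_zero (by omega), sub_self, zero_pow (by norm_num)]
      exact ww_nonneg R k
  · subst h
    by_cases hk : m < R
    · have hH := Hm_pos (R := R) (by omega)
      rw [ff_succ hk, ww, if_pos (by omega)]
      have e : ff R (m + 1) + 1 / (((m : ℝ) + 1) * Hm R) - ff R (m + 1) =
          1 / (((m : ℝ) + 1) * Hm R) := by ring
      rw [e, div_pow, one_pow, mul_pow]
      rw [div_le_div_iff₀ (by positivity) (by positivity)]
      push_cast
      have h3 : ((m : ℝ) + 1 + 1) ^ 2 ≤ 4 * ((m : ℝ) + 1) ^ 2 := by nlinarith [Nat.cast_nonneg (α := ℝ) m]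
      nlinarith [sq_nonneg (Hm R)]
    · rw [ff_zero (by omega), ff_zero (by omega), sub_self, zero_pow (by norm_num)]
      exact ww_nonneg R _

theorem sphere_card (hd1 : 1 ≤ d) (hd2 : d ≤ 2) (R k : ℕ) :
    (((bx d R).filter (fun z => nn z = k)).card : ℝ) ≤ 8 * ((k : ℝ) + 1) := by
  have key : ((bx d R).filter (fun z => nn z = k)).card ≤ 8 * (k + 1) := by
    rcases Nat.eq_zero_or_pos k with hk | hk
    · subst hk
      have h1 : (bx d R).filter (fun z => nn z = 0) ⊆ bx d 0 := by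
        intro z hz
        rw [Finset.mem_filter] at hz
        rw [mem_bx]
        omega
      have h2 := Finset.card_le_card h1
      rw [card_bx] at h2
      simp at h2
      omega
    · have h1 : (bx d R).filter (fun z => nn z = k) ⊆ bx d k \ bx d (k - 1) := by
        intro z hz
        rw [Finset.mem_filter] at hz
        rw [Finset.mem_sdiff, mem_bx, mem_bx]
        omega
      have h2 : bx d (k - 1) ⊆ bx d k := by
        intro z hz
        rw [mem_bx] at hz ⊢
        omega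
      have h3 := Finset.card_le_card h1
      rw [Finset.card_sdiff_of_subset h2, card_bx, card_bx] at h3
      obtain ⟨m, rfl⟩ : ∃ m, k = m + 1 := ⟨k - 1, by omega⟩
      rcases (by omega : d = 1 ∨ d = 2) with rfl | rfl
      · simp only [Nat.add_sub_cancel, pow_one] at h3
        omega
      · simp only [Nat.add_sub_cancel] at h3
        have e : (2 * (m + 1) + 1) ^ 2 = (2 * m + 1) ^ 2 + 8 * (m + 1) := by ring
        rw [e] at h3
        omega
  exact_mod_cast key

theorem energy_bound (hd1 : 1 ≤ d) (hd2 : d ≤ 2) (R : ℕ) (hR : 1 ≤ R) (s : Fin d × Bool) :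
    ∑' z : Fin d → ℤ, (ff R (nn (z + vecD s)) - ff R (nn z)) ^ 2 ≤
      32 * (Hm R + 1) / Hm R ^ 2 := by
  have hH := Hm_pos hR
  have hz : ∀ z ∉ bx d R, (ff R (nn (z + vecD s)) - ff R (nn z)) ^ 2 = 0 := by
    intro z hz
    rw [mem_bx] at hz
    have h1 := nn_add' z s
    rw [ff_zero (by omega), ff_zero (by omega)]
    ring
  rw [tsum_eq_sum hz]
  calc ∑ z ∈ bx d R, (ff R (nn (z + vecD s)) - ff R (nn z)) ^ 2
      ≤ ∑ z ∈ bx d R, ww R (nn z) :=
        Finset.sum_le_sum fun z _ => ff_diff (nn_add z s) (nn_add' z s)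
    _ = ∑ k ∈ Finset.range (R + 1), ∑ z ∈ (bx d R).filter (fun z => nn z = k), ww R (nn z) := by
        rw [Finset.sum_fiberwise_of_maps_to]
        intro z hz
        rw [mem_bx] at hz
        rw [Finset.mem_range]
        omega
    _ ≤ ∑ k ∈ Finset.range (R + 1), (32 / Hm R ^ 2) * (1 / ((k : ℝ) + 1)) := by
        apply Finset.sum_le_sum
        intro k hk
        rw [Finset.mem_range] at hk
        have e : ∑ z ∈ (bx d R).filter (fun z => nn z = k), ww R (nn z) =
            ∑ z ∈ (bx d R).filter (fun z => nn z = k), ww R k := by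
          apply Finset.sum_congr rfl
          intro z hz
          rw [(Finset.mem_filter.mp hz).2]
        rw [e, Finset.sum_const, nsmul_eq_mul]
        have h1 := mul_le_mul_of_nonneg_right (sphere_card hd1 hd2 R k) (ww_nonneg R k)
        refine h1.trans (le_of_eq ?_)
        rw [ww, if_pos (by omega)]
        have : (k : ℝ) + 1 ≠ 0 := by positivity
        field_simp
        ring
    _ = (32 / Hm R ^ 2) * (Hm R + 1 / ((R : ℝ) + 1)) := by
        rw [← Finset.mul_sum, Finset.sum_range_succ]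
        rfl
    _ ≤ (32 / Hm R ^ 2) * (Hm R + 1) := by
        apply mul_le_mul_of_nonneg_left _ (by positivity)
        have : 1 / ((R : ℝ) + 1) ≤ 1 := by
          rw [div_le_one (by positivity)]
          linarith [Nat.cast_nonneg (α := ℝ) R]
        linarith
    _ = 32 * (Hm R + 1) / Hm R ^ 2 := by ring

theorem point_ineq {a b G H : ℝ} (hG : 0 ≤ G) (hG1 : G ≤ 1) (hH : 0 ≤ H) (hH1 : H ≤ 1) :
    (a ^ 2 + b ^ 2) / 4 * (H - G) ^ 2 - 2 * (b - a) ^ 2 ≤ (b ^ 2 * H - a ^ 2 * G) * (H - G) := by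
  have h1 : (b ^ 2 * H - a ^ 2 * G) * (H - G) =
      (a ^ 2 + b ^ 2) / 2 * (H - G) ^ 2 + (b - a) * (a + b) / 2 * (H + G) * (H - G) := by ring
  have h2 : -((a + b) ^ 2 * (H - G) ^ 2 / 8 + 2 * (b - a) ^ 2) ≤
      (b - a) * (a + b) / 2 * (H + G) * (H - G) := by
    have h3 : (H + G) ^ 2 ≤ 4 := by nlinarith
    have h4 : ((b - a) * (a + b) / 2 * (H + G) * (H - G)) =
      2 * ((b - a) * ((H + G) / 2)) * ((a + b) * (H - G) / 2) := by ring
    have h5 : ((b - a) * ((H + G) / 2)) ^ 2 ≤ (b - a) ^ 2 := by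
      rw [mul_pow]
      have : ((H + G) / 2) ^ 2 ≤ 1 := by nlinarith
      nlinarith [sq_nonneg (b - a)]
    have h6 : 0 ≤ (2 * ((b - a) * ((H + G) / 2)) + ((a + b) * (H - G) / 2)) ^ 2 := sq_nonneg _
    nlinarith
  have h7 : (a + b) ^ 2 * (H - G) ^ 2 / 8 ≤ (a ^ 2 + b ^ 2) / 4 * (H - G) ^ 2 := by
    have : (a + b) ^ 2 / 8 ≤ (a ^ 2 + b ^ 2) / 4 := by nlinarith [sq_nonneg (a - b)]
    nlinarith [sq_nonneg (H - G)]
  rw [h1]
  nlinarith

theorem edge_bound (hd1 : 1 ≤ d) (hd2 : d ≤ 2) (g : (Fin d → ℤ) → ℝ)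
    (hg : ∀ z, 0 ≤ g z ∧ g z ≤ 1)
    (hL : ∀ z, g z * ∑ s : Fin d × Bool, (g (z + vecD s) - g z) = 0)
    (R : ℕ) (hR : 1 ≤ R) (z₀ : Fin d → ℤ) (s₀ : Fin d × Bool) :
    ff R (nn z₀) ^ 2 / 4 * (g (z₀ + vecD s₀) - g z₀) ^ 2 ≤
      2 * ((2 * d) * (32 * (Hm R + 1) / Hm R ^ 2)) := by
  classical
  set φ : (Fin d → ℤ) → ℝ := fun z => ff R (nn z) with hφ
  have hφ0 : ∀ z ∉ bx d R, φ z = 0 := by
    intro z hz
    rw [mem_bx] at hz
    exact ff_zero (by omega)
  have hφ1 : ∀ z ∉ bx d (R + 1), ∀ s : Fin d × Bool, φ z = 0 ∧ φ (z + vecD s) = 0 := by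
    intro z hz s
    rw [mem_bx] at hz
    have h1 := nn_add' z s
    exact ⟨ff_zero (by omega), ff_zero (by omega)⟩
  set T1 : Fin d × Bool → ℝ := fun s => ∑' z, φ z ^ 2 * g z * (g (z + vecD s) - g z) with hT1
  set T2 : Fin d × Bool → ℝ := fun s =>
    ∑' z, φ (z + vecD s) ^ 2 * g (z + vecD s) * (g (z + vecD s) - g z) with hT2
  have hs1 : ∀ s : Fin d × Bool, Summable (fun z => φ z ^ 2 * g z * (g (z + vecD s) - g z)) := by
    intro s
    apply summable_of_ne_finset_zero (s := bx d (R + 1))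
    intro z hz
    rw [(hφ1 z hz s).1]; ring
  have hs2 : ∀ s : Fin d × Bool,
      Summable (fun z => φ (z + vecD s) ^ 2 * g (z + vecD s) * (g (z + vecD s) - g z)) := by
    intro s
    apply summable_of_ne_finset_zero (s := bx d (R + 1))
    intro z hz
    rw [(hφ1 z hz s).2]; ring
  have hsum1 : ∑ s, T1 s = 0 := by
    simp only [hT1]
    rw [← Summable.tsum_finsetSum (fun s _ => hs1 s)]
    have : ∀ z : Fin d → ℤ, ∑ s : Fin d × Bool, φ z ^ 2 * g z * (g (z + vecD s) - g z) = 0 := by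
      intro z
      rw [← Finset.mul_sum, mul_assoc, hL z, mul_zero]
    simp only [this, tsum_zero]
  have h12 : ∀ s, T2 s = -T1 (ng s) := by
    intro s
    simp only [hT1, hT2]
    rw [← tsum_neg, ← (Equiv.addRight (vecD s)).tsum_eq
      (fun z => -(φ z ^ 2 * g z * (g (z + vecD (ng s)) - g z)))]
    apply tsum_congr
    intro z
    simp only [Equiv.coe_addRight]
    rw [vecD_ng, add_neg_cancel_right]
    ring
  have hsum2 : ∑ s, T2 s = 0 := by
    have e : ∑ s, T1 (ng s) = ∑ s, T1 s := by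
      apply Fintype.sum_bijective (ng : Fin d × Bool → Fin d × Bool)
      · apply Function.Involutive.bijective
        intro s
        simp [ng]
      · intro s; rfl
    simp only [h12]
    rw [Finset.sum_neg_distrib, e, hsum1, neg_zero]
  set A : Fin d × Bool → (Fin d → ℤ) → ℝ := fun s z =>
    (φ z ^ 2 + φ (z + vecD s) ^ 2) / 4 * (g (z + vecD s) - g z) ^ 2 with hA
  set E : Fin d × Bool → (Fin d → ℤ) → ℝ := fun s z => (φ (z + vecD s) - φ z) ^ 2 with hE
  have hsA : ∀ s, Summable (A s) := by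
    intro s
    apply summable_of_ne_finset_zero (s := bx d (R + 1))
    intro z hz
    simp only [hA]
    rw [(hφ1 z hz s).1, (hφ1 z hz s).2]; ring
  have hsE : ∀ s, Summable (E s) := by
    intro s
    apply summable_of_ne_finset_zero (s := bx d (R + 1))
    intro z hz
    simp only [hE]
    rw [(hφ1 z hz s).1, (hφ1 z hz s).2]; ring
  have hle : ∀ s, ∑' z, A s z - 2 * ∑' z, E s z ≤ T2 s - T1 s := by
    intro s
    simp only [hT1, hT2]
    rw [← tsum_mul_left, ← (hsA s).tsum_sub ((hsE s).mul_left 2), ← (hs2 s).tsum_sub (hs1 s)]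
    apply Summable.tsum_le_tsum _ ((hsA s).sub ((hsE s).mul_left 2)) ((hs2 s).sub (hs1 s))
    intro z
    have := point_ineq (a := φ z) (b := φ (z + vecD s)) (hg z).1 (hg z).2
      (hg (z + vecD s)).1 (hg (z + vecD s)).2
    simp only [hA, hE]
    refine this.trans (le_of_eq ?_)
    ring
  have hA0 : ∀ s z, 0 ≤ A s z := by
    intro s z
    simp only [hA]
    positivity
  have hbound : ∑ s, ∑' z, A s z ≤ 2 * ((2 * d) * (32 * (Hm R + 1) / Hm R ^ 2)) := by
    have h1 : ∑ s, (∑' z, A s z - 2 * ∑' z, E s z) ≤ ∑ s, (T2 s - T1 s) :=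
      Finset.sum_le_sum fun s _ => hle s
    rw [Finset.sum_sub_distrib, Finset.sum_sub_distrib, hsum1, hsum2, sub_zero,
      ← Finset.mul_sum] at h1
    have h2 : ∑ s, ∑' z, E s z ≤ ∑ _s : Fin d × Bool, (32 * (Hm R + 1) / Hm R ^ 2) :=
      Finset.sum_le_sum fun s _ => energy_bound hd1 hd2 R hR s
    rw [Finset.sum_const, nsmul_eq_mul] at h2
    have h3 : ((Finset.univ : Finset (Fin d × Bool)).card : ℝ) = 2 * d := by
      simp [Finset.card_univ, Fintype.card_prod, mul_comm]
    rw [h3] at h2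
    linarith
  calc ff R (nn z₀) ^ 2 / 4 * (g (z₀ + vecD s₀) - g z₀) ^ 2 ≤ A s₀ z₀ := by
        simp only [hA]
        apply mul_le_mul_of_nonneg_right _ (sq_nonneg _)
        have : 0 ≤ φ (z₀ + vecD s₀) ^ 2 := sq_nonneg _
        have e : ff R (nn z₀) = φ z₀ := rfl
        rw [e]
        linarith
    _ ≤ ∑' z, A s₀ z := (hsA s₀).le_tsum z₀ (fun z _ => hA0 s₀ z)
    _ ≤ ∑ s, ∑' z, A s z :=
        Finset.single_le_sum (f := fun s => ∑' z, A s z) (fun s _ => tsum_nonneg (hA0 s))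
          (Finset.mem_univ s₀)
    _ ≤ _ := hbound

theorem edge_zero (hd1 : 1 ≤ d) (hd2 : d ≤ 2) (g : (Fin d → ℤ) → ℝ)
    (hg : ∀ z, 0 ≤ g z ∧ g z ≤ 1)
    (hL : ∀ z, g z * ∑ s : Fin d × Bool, (g (z + vecD s) - g z) = 0)
    (z₀ : Fin d → ℤ) (s₀ : Fin d × Bool) : g (z₀ + vecD s₀) = g z₀ := by
  have hH : Tendsto Hm atTop atTop := Real.tendsto_sum_range_one_div_nat_succ_atTop
  have hi : Tendsto (fun R => (Hm R)⁻¹) atTop (𝓝 0) := tendsto_inv_atTop_zero.comp hH
  have h1 : Tendsto (fun R => ff R (nn z₀) ^ 2 / 4 * (g (z₀ + vecD s₀) - g z₀) ^ 2) atTop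
      (𝓝 ((1 : ℝ) ^ 2 / 4 * (g (z₀ + vecD s₀) - g z₀) ^ 2)) :=
    (((ff_tendsto (nn z₀)).pow 2).div_const 4).mul_const _
  have h2 : Tendsto (fun R => 2 * ((2 * (d : ℝ)) * (32 * (Hm R + 1) / Hm R ^ 2))) atTop (𝓝 0) := by
    have h3 : Tendsto (fun R => 2 * ((2 * (d : ℝ)) * (32 * ((Hm R)⁻¹ + (Hm R)⁻¹ ^ 2)))) atTop
        (𝓝 (2 * ((2 * (d : ℝ)) * (32 * (0 + 0 ^ 2))))) :=
      (((hi.add (hi.pow 2)).const_mul 32).const_mul (2 * (d : ℝ))).const_mul 2
    have e : (2 * ((2 * (d : ℝ)) * (32 * ((0 : ℝ) + 0 ^ 2)))) = 0 := by ring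
    rw [e] at h3
    refine h3.congr' ?_
    filter_upwards [eventually_ge_atTop 1] with R hR
    have := (Hm_pos hR).ne'
    field_simp
  have h4 : (1 : ℝ) ^ 2 / 4 * (g (z₀ + vecD s₀) - g z₀) ^ 2 ≤ 0 := by
    refine le_of_tendsto_of_tendsto h1 h2 ?_
    filter_upwards [eventually_ge_atTop 1] with R hR
    exact edge_bound hd1 hd2 g hg hL R hR z₀ s₀
  have h5 : (g (z₀ + vecD s₀) - g z₀) ^ 2 ≤ 0 := by linarith
  have h6 : g (z₀ + vecD s₀) - g z₀ = 0 := by
    have := sq_nonneg (g (z₀ + vecD s₀) - g z₀)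
    exact pow_eq_zero_iff (two_ne_zero) |>.mp (le_antisymm h5 this)
  linarith

theorem const_of_edge (g : (Fin d → ℤ) → ℝ)
    (h : ∀ z (s : Fin d × Bool), g (z + vecD s) = g z) (z : Fin d → ℤ) : g z = g 0 := by
  have h1 : ∀ (i : Fin d) (n : ℤ) (w : Fin d → ℤ), g (w + Pi.single i n) = g w := by
    intro i n
    induction n using Int.induction_on with
    | zero => intro w; simp
    | succ n ih =>
      intro w
      have e : w + Pi.single i ((n : ℤ) + 1) = (w + Pi.single i (n : ℤ)) + vecD (i, true) := by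
        simp [vecD, Pi.single_add, add_assoc]
      rw [e, h, ih]
    | pred n ih =>
      intro w
      have e : w + Pi.single i (-(n : ℤ) - 1) = (w + Pi.single i (-(n : ℤ))) + vecD (i, false) := by
        rw [sub_eq_add_neg, Pi.single_add, add_assoc]
        simp [vecD]
      rw [e, h, ih]
  have h2 : ∀ (t : Finset (Fin d)), g (∑ i ∈ t, Pi.single i (z i)) = g 0 := by
    classical
    intro t
    induction t using Finset.induction_on with
    | empty => simp
    | insert a t ha ih =>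
      rw [Finset.sum_insert ha, add_comm, h1, ih]
  have h3 := h2 Finset.univ
  rwa [Finset.univ_sum_single] at h3

theorem reca : S_RECA := by
  intro d hd1 hd2 y g hg hy hharm z
  set G : (Fin d → ℤ) → ℝ := fun w => g (w + y) with hG
  have hG1 : ∀ w, 0 ≤ G w ∧ G w ≤ 1 := fun w => hg _
  have hL : ∀ w, G w * ∑ s : Fin d × Bool, (G (w + vecD s) - G w) = 0 := by
    intro w
    by_cases hw : w = 0
    · have : G w = 0 := by
        simp only [hG, hw, zero_add, hy]
      rw [this, zero_mul]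
    · have h1 : w + y ≠ y := by
        intro h
        exact hw (by simpa using h)
      have h2 := hharm (w + y) h1
      have h3 : ∑ s : Fin d × Bool, (G (w + vecD s) - G w) = 0 := by
        rw [Finset.sum_sub_distrib, Finset.sum_const, nsmul_eq_mul]
        have e : ∑ s : Fin d × Bool, G (w + vecD s) = ∑ s : Fin d × Bool, g (w + y + vecD s) := by
          apply Finset.sum_congr rfl
          intro s _
          simp only [hG]
          congr 1
          abel
        have hc : ((Finset.univ : Finset (Fin d × Bool)).card : ℝ) = 2 * d := by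
          simp [Finset.card_univ, Fintype.card_prod, mul_comm]
        have hd0 : (2 * (d : ℝ)) ≠ 0 := by
          have : (1 : ℝ) ≤ d := by exact_mod_cast hd1
          positivity
        rw [e, hc]
        have h4 : G w = g (w + y) := rfl
        rw [h4]
        conv_lhs => rw [h2]
        rw [← mul_assoc, mul_inv_cancel₀ hd0, one_mul, sub_self]
      rw [h3, mul_zero]
  have h5 := const_of_edge G (fun w s => edge_zero hd1 hd2 G hG1 hL w s) (z - y)
  simp only [hG, sub_add_cancel, zero_add, hy] at h5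
  exact h5

end Pool.Agent.Y217.NX
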